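import Pool.Agent.Run7.h932.RG.Stm2
import Pool.Agent.Run7.h594.RG.BAL

set_option autoImplicit false

/-! Project RG2 (helper932), piece BAL2, adapted from `Pool.Agent.Run7.h594.RG.t_BAL`. -/

namespace Run7.h531.RG.B

open Finset Classical Run7.h932.RG Pool.Agent.Run7.h594.RG

/-- Chebyshev -/
theorem bad2 {n k : ℕ} (hk : 1 ≤ k) (hn : 1 ≤ n) (p : Fin n → Fin n → ℝ) (Δ d : ℝ) (hd : 0 < d)
    (hq0 : ∀ x y, 0 ≤ p x y) (hqs : ∀ x y, p x y ≤ (n : ℝ) ^ (-d)) (hqd : ∀ x, ∑ y, p x y ≤ Δ)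
    (hΔ : 4 * Δ ≤ n) :
    ((univ.filter fun σ : Fin n → Fin k =>
      ¬ |Ps p σ - PP p / k| ≤ (n : ℝ) ^ (1 - d / 3)).card : ℝ) ≤ (k : ℝ) ^ n * (1 / 4) := by
  have hn0 : (0 : ℝ) < n := by exact_mod_cast hn
  have hn1 : (1 : ℝ) ≤ n := by exact_mod_cast hn
  have h1 := var_le hk p Δ ((n : ℝ) ^ (-d)) hq0 hqs (by positivity) hqd
  set T : ℝ := (n : ℝ) ^ (1 - d / 3) with hT
  have hT0 : 0 < T := by positivity
  have h2 : ((univ.filter fun σ : Fin n → Fin k =>
      ¬ |Ps p σ - PP p / k| ≤ T).card : ℝ) * T ^ 2 ≤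
      ∑ σ : Fin n → Fin k, (Ps p σ - PP p / k) ^ 2 := by
    rw [← nsmul_eq_mul, ← sum_const]
    refine (sum_le_sum fun σ hσ => ?_).trans
      (sum_le_univ_sum_of_nonneg fun σ => sq_nonneg (Ps p σ - PP p / k))
    rw [mem_filter, not_le] at hσ
    rw [← sq_abs (Ps p σ - PP p / k)]
    exact pow_le_pow_left₀ hT0.le hσ.2.le 2
  have h4 := h2.trans h1
  have h5 : (n : ℝ) ^ (-d) * (n * Δ) ≤ 1 / 4 * T ^ 2 := by
    have h6 : T ^ 2 = (n : ℝ) ^ (-(2 * d / 3)) * (n * n) := by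
      have h7 : (n : ℝ) * n = (n : ℝ) ^ (2 : ℝ) := by
        rw [show (2 : ℝ) = ((2 : ℕ) : ℝ) by norm_num, Real.rpow_natCast]
        ring
      rw [hT, ← Real.rpow_natCast, ← Real.rpow_mul hn0.le, h7, ← Real.rpow_add hn0]
      congr 1
      push_cast
      ring
    have h8 : (n : ℝ) ^ (-d) ≤ (n : ℝ) ^ (-(2 * d / 3)) :=
      Real.rpow_le_rpow_of_exponent_le hn1 (by linarith)
    have h9 : (n : ℝ) * Δ ≤ n * (n / 4) := mul_le_mul_of_nonneg_left (by linarith) hn0.le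
    have h10 : (0 : ℝ) ≤ (n : ℝ) ^ (-d) := by positivity
    calc (n : ℝ) ^ (-d) * (n * Δ) ≤ (n : ℝ) ^ (-d) * (n * (n / 4)) :=
          mul_le_mul_of_nonneg_left h9 h10
      _ ≤ (n : ℝ) ^ (-(2 * d / 3)) * (n * (n / 4)) :=
          mul_le_mul_of_nonneg_right h8 (by positivity)
      _ = 1 / 4 * T ^ 2 := by rw [h6]; ring
  have h6 : (k : ℝ) ^ n * ((n : ℝ) ^ (-d) * (n * Δ)) ≤ (k : ℝ) ^ n * (1 / 4) * T ^ 2 := by
    rw [mul_assoc]
    exact mul_le_mul_of_nonneg_left h5 (by positivity)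
  exact le_of_mul_le_mul_right (h4.trans h6) (by positivity)

/-- Chernoff for one vertex -/
theorem bad1 {n k : ℕ} (hk : 2 ≤ k) (hn : 1 ≤ n) (p : Fin n → Fin n → ℝ) (Δ c d : ℝ)
    (hc0 : 0 < c) (hc1 : c ≤ 1) (hcΔ : c * Δ ≤ 1 / 2) (hq0 : ∀ x y, 0 ≤ p x y)
    (hqs : ∀ x y, p x y ≤ (n : ℝ) ^ (-d)) (hqd : ∀ x, ∑ y, p x y ≤ Δ) (x : Fin n) :
    ((univ.filter fun σ : Fin n → Fin k =>
      ¬ (∑ y, if x ≠ y ∧ σ x = σ y then p x y else 0) ≤ (∑ y, p x y) / k + 1 / 2).card : ℝ) ≤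
      (k : ℝ) ^ n * Real.exp (-(c * (n : ℝ) ^ d / 4)) := by
  have hn0 : (0 : ℝ) < n := by exact_mod_cast hn
  have hk0 : (0 : ℝ) < k := by
    have : (0 : ℕ) < k := by omega
    exact_mod_cast this
  have hk2 : (2 : ℝ) ≤ k := by exact_mod_cast hk
  set lam : ℝ := c * (n : ℝ) ^ d with hlam
  have hlam0 : 0 < lam := by positivity
  have hlp : ∀ y, lam * p x y ≤ c := by
    intro y
    calc lam * p x y ≤ lam * (n : ℝ) ^ (-d) :=
          mul_le_mul_of_nonneg_left (hqs x y) hlam0.le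
      _ = c * ((n : ℝ) ^ d * (n : ℝ) ^ (-d)) := by rw [hlam]; ring
      _ = c := by
          rw [← Real.rpow_add hn0]
          simp
  have hexp : ∀ y, Real.exp (lam * p x y) - 1 ≤ lam * (1 + c) * p x y := by
    intro y
    have h1 : 0 ≤ lam * p x y := mul_nonneg hlam0.le (hq0 x y)
    have h2 := Real.abs_exp_sub_one_sub_id_le (x := lam * p x y) (by
      rw [abs_of_nonneg h1]
      exact (hlp y).trans hc1)
    have h3 := (abs_le.1 h2).2
    have h4 : (lam * p x y) ^ 2 ≤ c * (lam * p x y) := by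
      rw [sq]
      exact mul_le_mul_of_nonneg_right (hlp y) h1
    linarith
  set D : ℝ := ∑ y, p x y with hD
  have hD1 : D ≤ Δ := hqd x
  have hD0 : 0 ≤ D := sum_nonneg fun y _ => hq0 x y
  have h5 : ∑ σ : Fin n → Fin k, Real.exp (lam * ∑ y, if x ≠ y ∧ σ x = σ y then p x y else 0) ≤
      (k : ℝ) ^ n * Real.exp (lam * (1 + c) * D / k) := by
    have h6 : ∀ σ : Fin n → Fin k,
        Real.exp (lam * ∑ y, if x ≠ y ∧ σ x = σ y then p x y else 0) =
        ∏ y, (if x ≠ y ∧ σ x = σ y then Real.exp (lam * p x y) else 1) := by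
      intro σ
      rw [mul_sum, Real.exp_sum]
      refine prod_congr rfl fun y _ => ?_
      split_ifs
      · rfl
      · simp
    simp only [h6]
    rw [exp_nb (by omega) x fun y => Real.exp (lam * p x y)]
    gcongr
    have h7 : Real.exp (lam * (1 + c) * D / k) = ∏ y, Real.exp (lam * (1 + c) * p x y / k) := by
      rw [← Real.exp_sum, hD, mul_sum, sum_div]
    rw [h7]
    refine prod_le_prod (fun y _ => ?_) fun y _ => ?_
    · have h8 : 1 ≤ Real.exp (lam * p x y) := Real.one_le_exp (mul_nonneg hlam0.le (hq0 x y))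
      split_ifs
      · exact zero_le_one
      · have : 0 ≤ (Real.exp (lam * p x y) - 1) / k := div_nonneg (by linarith) hk0.le
        linarith
    · split_ifs
      · exact Real.one_le_exp (div_nonneg (mul_nonneg (by positivity) (hq0 x y)) hk0.le)
      · have h9 : (Real.exp (lam * p x y) - 1) / k ≤ lam * (1 + c) * p x y / k :=
          div_le_div_of_nonneg_right (hexp y) hk0.le
        have h10 := Real.add_one_le_exp (lam * (1 + c) * p x y / k)
        linarith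
  have h11 : ((univ.filter fun σ : Fin n → Fin k =>
      ¬ (∑ y, if x ≠ y ∧ σ x = σ y then p x y else 0) ≤ D / k + 1 / 2).card : ℝ) *
      Real.exp (lam * (D / k + 1 / 2)) ≤
      ∑ σ : Fin n → Fin k, Real.exp (lam * ∑ y, if x ≠ y ∧ σ x = σ y then p x y else 0) := by
    rw [← nsmul_eq_mul, ← sum_const]
    refine (sum_le_sum fun σ hσ => ?_).trans
      (sum_le_univ_sum_of_nonneg fun σ => (Real.exp_pos _).le)
    rw [mem_filter, not_le] at hσ
    exact Real.exp_le_exp.2 (mul_le_mul_of_nonneg_left hσ.2.le hlam0.le)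
  have h12 := h11.trans h5
  rw [← le_div_iff₀ (Real.exp_pos _), mul_div_assoc, ← Real.exp_sub] at h12
  refine h12.trans ?_
  gcongr
  have h13 : lam * (1 + c) * D / k - lam * (D / k + 1 / 2) = lam * (c * D / k) - lam / 2 := by
    field_simp
    ring
  have h14 : c * D / k ≤ 1 / 4 := by
    rw [div_le_iff₀ hk0]
    have h15 : c * D ≤ c * Δ := mul_le_mul_of_nonneg_left hD1 hc0.le
    linarith
  rw [h13]
  nlinarith

theorem t_BAL2 : S_BAL2 := by
  intro d k Δ hd _ hk hΔ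
  have hk0 : (0 : ℝ) < k := by
    have : (0 : ℕ) < k := by omega
    exact_mod_cast this
  set c : ℝ := min 1 (1 / (2 * Δ)) with hc
  have hc0 : 0 < c := lt_min one_pos (by positivity)
  have hc1 : c ≤ 1 := min_le_left _ _
  have hcΔ : c * Δ ≤ 1 / 2 := by
    calc c * Δ ≤ 1 / (2 * Δ) * Δ := mul_le_mul_of_nonneg_right (min_le_right _ _) hΔ.le
      _ = 1 / 2 := by field_simp
  have ht1 : Filter.Tendsto (fun n : ℕ => (n : ℝ)) Filter.atTop Filter.atTop :=
    tendsto_natCast_atTop_atTop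
  have ht2 : Filter.Tendsto (fun n : ℕ => ((n : ℝ) ^ d) ^ (1 / d) * Real.exp (-(c / 4) * (n : ℝ) ^ d))
      Filter.atTop (nhds 0) :=
    (tendsto_rpow_mul_exp_neg_mul_atTop_nhds_zero (1 / d) (c / 4) (by positivity)).comp
      ((tendsto_rpow_atTop hd).comp tendsto_natCast_atTop_atTop)
  obtain ⟨n₀, hn₀⟩ := Filter.eventually_atTop.1
    ((ht1.eventually_ge_atTop (4 * Δ)).and
      (ht2.eventually_le_const (show (0 : ℝ) < 1 / 4 by norm_num)))
  refine ⟨max n₀ 1, fun n hn p hq0 hqs hsym hqd => ?_⟩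
  have hn1 : 1 ≤ n := le_of_max_le_right hn
  have hn0 : (0 : ℝ) < n := by exact_mod_cast hn1
  obtain ⟨h1, h2⟩ := hn₀ n (le_of_max_le_left hn)
  have hb2 := bad2 (k := k) (by omega) hn1 p Δ d hd hq0 hqs hqd h1
  have hb1 := bad1 (k := k) hk hn1 p Δ c d hc0 hc1 hcΔ hq0 hqs hqd
  have h4 : (n : ℝ) * Real.exp (-(c * (n : ℝ) ^ d / 4)) ≤ 1 / 4 := by
    rw [← Real.rpow_mul hn0.le, mul_one_div_cancel hd.ne', Real.rpow_one] at h2
    have h5 : -(c * (n : ℝ) ^ d / 4) = -(c / 4) * (n : ℝ) ^ d := by ring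
    rw [h5]
    exact h2
  -- the union bound
  have htot : (k : ℝ) ^ n = ((univ : Finset (Fin n → Fin k)).card : ℝ) := by
    rw [card_univ, Fintype.card_pi]
    simp
  have hcov : (univ : Finset (Fin n → Fin k)) ⊆ (univ.filter fun σ : Fin n → Fin k => GoodT ((n : ℝ) ^ (1 - d / 3)) p σ) ∪
      ((univ.filter fun σ : Fin n → Fin k => ¬ |Ps p σ - PP p / k| ≤ (n : ℝ) ^ (1 - d / 3)) ∪
        (univ : Finset (Fin n)).biUnion fun x => univ.filter fun σ : Fin n → Fin k =>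
          ¬ (∑ y, if x ≠ y ∧ σ x = σ y then p x y else 0) ≤ (∑ y, p x y) / k + 1 / 2) := by
    intro σ _
    rw [mem_union, mem_union, mem_filter, mem_filter, mem_biUnion]
    by_cases hg1 : ∀ x, (∑ y, if x ≠ y ∧ σ x = σ y then p x y else 0) ≤ (∑ y, p x y) / k + 1 / 2
    · by_cases hg2 : |Ps p σ - PP p / k| ≤ (n : ℝ) ^ (1 - d / 3)
      · left
        exact ⟨mem_univ _, hg1, hg2⟩
      · right
        left
        exact ⟨mem_univ _, hg2⟩
    · right
      right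
      push Not at hg1
      obtain ⟨x, hx⟩ := hg1
      refine ⟨x, mem_univ _, ?_⟩
      rw [mem_filter]
      exact ⟨mem_univ _, not_le.2 hx⟩
  have hcard := (card_le_card hcov).trans ((card_union_le _ _).trans
    (Nat.add_le_add_left ((card_union_le _ _).trans (Nat.add_le_add_left card_biUnion_le _)) _))
  have hcard' : (k : ℝ) ^ n ≤ ((univ.filter fun σ : Fin n → Fin k => GoodT ((n : ℝ) ^ (1 - d / 3)) p σ).card : ℝ) +
      (((univ.filter fun σ : Fin n → Fin k =>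
        ¬ |Ps p σ - PP p / k| ≤ (n : ℝ) ^ (1 - d / 3)).card : ℝ) +
        ∑ x : Fin n, ((univ.filter fun σ : Fin n → Fin k =>
          ¬ (∑ y, if x ≠ y ∧ σ x = σ y then p x y else 0) ≤ (∑ y, p x y) / k + 1 / 2).card : ℝ)) := by
    rw [htot]
    exact_mod_cast hcard
  have hsum : ∑ x : Fin n, ((univ.filter fun σ : Fin n → Fin k =>
          ¬ (∑ y, if x ≠ y ∧ σ x = σ y then p x y else 0) ≤ (∑ y, p x y) / k + 1 / 2).card : ℝ) ≤
      (k : ℝ) ^ n * (1 / 4) := by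
    calc _ ≤ ∑ _x : Fin n, (k : ℝ) ^ n * Real.exp (-(c * (n : ℝ) ^ d / 4)) :=
          sum_le_sum fun x _ => hb1 x
      _ = (k : ℝ) ^ n * ((n : ℝ) * Real.exp (-(c * (n : ℝ) ^ d / 4))) := by
          rw [sum_const, card_univ, Fintype.card_fin, nsmul_eq_mul]
          ring
      _ ≤ _ := by gcongr
  linarith

end Run7.h531.RG.B
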