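import Pool.Agent.Run7.h932.RG.Stm2
import Pool.Agent.Run7.h925.RG.MOM

set_option autoImplicit false

/-! Project RG2 (helper932), piece MOM12, adapted from `Run7.h925.RG.t_MOM1`. -/

namespace Run7.h531.RG.M

open Finset Classical Run7.h932.RG Run7.h925.RG

/-- `n^(-c) ≤ 1/2` for all large `n`. -/
theorem ev_half (c : ℝ) (hc : 0 < c) : ∃ n₀ : ℕ, 1 ≤ n₀ ∧ ∀ n : ℕ, n₀ ≤ n → (n : ℝ) ^ (-c) ≤ 1 / 2 := by
  have h1 : Filter.Tendsto (fun n : ℕ => (n : ℝ) ^ (-c)) Filter.atTop (nhds 0) :=
    (tendsto_rpow_neg_atTop hc).comp tendsto_natCast_atTop_atTop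
  have h2 := h1.eventually_le_const (show (0 : ℝ) < 1 / 2 by norm_num)
  obtain ⟨N, hN⟩ := Filter.eventually_atTop.1 h2
  exact ⟨max N 1, le_max_right _ _, fun n hn => hN n ((le_max_left _ _).trans hn)⟩

theorem t_MOM12 : S_MOM12 := by
  intro c hc
  obtain ⟨N0, hN1, hN0⟩ := ev_half c hc
  refine ⟨N0, ?_⟩
  intro n k Δ p σ hn hk hq0 hqs hqd
  set r : ℝ := (k : ℝ) / (k - 1) with hr
  have hk' : (2 : ℝ) ≤ k := by exact_mod_cast hk
  have hk1 : (0 : ℝ) < k - 1 := by linarith
  have hn' : (1 : ℝ) ≤ n := by exact_mod_cast (hN1.trans hn)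
  have hr1 : 1 ≤ r := by
    rw [hr, le_div_iff₀ (by linarith)]
    linarith
  have hp0 : ∀ x y, 0 ≤ p x y := hq0
  have hph : ∀ x y, p x y ≤ 1 / 2 := fun x y => (hqs x y).trans (hN0 n hn)
  have e1 : ∀ ω : Fin n → Fin n → Bool,
      mu p ω * ((if Prp ω σ then 1 else 0) * r ^ ms ω) =
      ∏ y, ∏ x, (fun (y x : Fin n) (b : Bool) => wt (p x y) b *
        (if x < y ∧ b = true then (if σ x = σ y then 0 else r) else 1)) y x (ω y x) := by
    intro ω
    rw [ind_pow]
    unfold mu
    simp only [Finset.prod_mul_distrib]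
  rw [Finset.sum_congr rfl fun ω _ => e1 ω, sum_prod2 (fun (y x : Fin n) (b : Bool) =>
    wt (p x y) b * (if x < y ∧ b = true then (if σ x = σ y then 0 else r) else 1))]
  have hsq : ∑ y : Fin n, ∑ x : Fin n, (if x < y then p x y ^ 2 else 0) ≤
      (n : ℝ) ^ (1 - c) * Δ := by
    have h1 : ∀ y x : Fin n, (if x < y then p x y ^ 2 else 0) ≤
        (n : ℝ) ^ (-c) * p x y := by
      intro y x
      split_ifs
      · rw [sq]
        exact mul_le_mul_of_nonneg_right (hqs x y) (hp0 x y)
      · exact mul_nonneg (by positivity) (hp0 x y)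
    calc ∑ y : Fin n, ∑ x : Fin n, (if x < y then p x y ^ 2 else 0)
        ≤ ∑ y : Fin n, ∑ x : Fin n, (n : ℝ) ^ (-c) * p x y :=
          Finset.sum_le_sum fun y _ => Finset.sum_le_sum fun x _ => h1 y x
      _ = (n : ℝ) ^ (-c) * ∑ x : Fin n, ∑ y : Fin n, p x y := by
          rw [Finset.sum_comm]
          simp only [← Finset.mul_sum]
      _ ≤ (n : ℝ) ^ (-c) * ∑ y : Fin n, Δ := by
          refine mul_le_mul_of_nonneg_left (Finset.sum_le_sum fun y _ => hqd y) (by positivity)
      _ = (n : ℝ) ^ (1 - c) * Δ := by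
          rw [Finset.sum_const, card_univ, Fintype.card_fin, nsmul_eq_mul, ← mul_assoc]
          congr 1
          have h5 : (n : ℝ) ^ (-c) * (n : ℝ) =
              (n : ℝ) ^ (-c) * (n : ℝ) ^ (1 : ℝ) := by rw [Real.rpow_one]
          rw [h5, ← Real.rpow_add (by linarith)]
          congr 1
          ring
  have e2 : (PP p - k * Ps p σ) / (k - 1) - ∑ y : Fin n, ∑ x : Fin n,
      (if x < y then p x y ^ 2 else 0) =
      ∑ y : Fin n, ∑ x : Fin n, (((if x < y then p x y else 0) -
        k * (if x < y ∧ σ x = σ y then p x y else 0)) / (k - 1) -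
        (if x < y then p x y ^ 2 else 0)) := by
    unfold Ps PP
    simp only [Finset.sum_sub_distrib, ← Finset.mul_sum, ← Finset.sum_div]
  refine (Real.exp_le_exp.mpr (sub_le_sub_left hsq _)).trans ?_
  rw [e2, Real.exp_sum]
  refine Finset.prod_le_prod (fun y _ => (Real.exp_pos _).le) ?_
  intro y _
  rw [Real.exp_sum]
  refine Finset.prod_le_prod (fun x _ => (Real.exp_pos _).le) ?_
  intro x _
  have q0 := hp0 x y
  have q1 := hph x y
  by_cases hxy : x < y
  · by_cases hs : σ x = σ y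
    · simp only [hxy, hs, wt, and_self, if_true, true_and]
      simp
      refine le_trans (Real.exp_le_exp.mpr ?_) (exp_a q0 q1)
      have : (p x y - k * p x y) / (k - 1) = - p x y := by
        field_simp
        ring
      rw [this]
    · simp only [hxy, hs, wt, if_true, true_and]
      simp
      have hu0 : 0 ≤ p x y / (k - 1) := div_nonneg q0 hk1.le
      have hu1 : p x y / (k - 1) ≤ p x y := by
        rw [div_le_iff₀ hk1]
        nlinarith
      have h6 := exp_b hu0 (by linarith : p x y / (k - 1) ≤ 1)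
      have h7 : p x y * r + (1 - p x y) = 1 + p x y / (k - 1) := by
        rw [hr]
        field_simp
        ring
      rw [h7]
      refine le_trans (Real.exp_le_exp.mpr ?_) h6
      have := pow_le_pow_left₀ hu0 hu1 2
      linarith
  · simp [hxy, wt]

end Run7.h531.RG.M
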